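import Mathlib
import Pool.Agent.P.MP_df1ab4_co.TernB

set_option autoImplicit false

namespace Pool.Agent.Results.MP_df1ab4_co.TernaryUnbounded

/-- `W` is a shuffle square: its positions can be marked `true` or `false` so that the subword on
the `true` positions equals the subword on the `false` positions. -/
def IsShuffleSquare {A : Type} (W : List A) : Prop :=
  ∃ m : List Bool, m.length = W.length ∧
    ((W.zip m).filter fun p => p.2).map Prod.fst = ((W.zip m).filter fun p => !p.2).map Prod.fst

/-- The cutting distance of `W` is at most `c`: `W` is a concatenation of at most `c + 1`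
consecutive blocks that can be reordered into a shuffle square. -/
def CutDistLE {A : Type} (W : List A) (c : ℕ) : Prop :=
  ∃ B B' : List (List A), B.length ≤ c + 1 ∧ B.flatten = W ∧ B'.Perm B ∧
    IsShuffleSquare B'.flatten

/-- Over every alphabet with at least three letters the cutting distance of even words is
unbounded; in particular it is not bounded by the size of the alphabet. -/
theorem result (k : ℕ) (hk : 3 ≤ k) (c : ℕ) :
    ∃ W : List (Fin k), (∀ a : Fin k, Even (W.count a)) ∧ ¬ CutDistLE W c := by
  obtain ⟨W, hW, h⟩ := Pool.Agent.P.MP_df1ab4_co.Tern.main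
    (fun i => (⟨i % 3, by omega⟩ : Fin k))
    (fun i j hi hj e => by
      have := congrArg Fin.val e
      simp only at this
      omega) (c + 1)
  exact ⟨W, fun a => by convert hW a, fun ⟨B, B', h1, h2, h3, m, h4, h5⟩ =>
    h B B' h1 h2 h3 m h4 h5⟩

end Pool.Agent.Results.MP_df1ab4_co.TernaryUnbounded
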